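import Mathlib
import Pool.Agent.Helper12.Skew.Defs
import Pool.Agent.Helper12.Skew.Assembly
import Pool.Agent.Helper62.SkewTorusMain

/-!
# MP_8d8e6a_an: weak mixing of typical compact group extensions of weakly mixing interval exchanges

Positive answer to Q1: for every compact connected (second countable, Hausdorff) group `G` with
normalized Haar measure `ν` and every weakly mixing interval exchange transformation, the
`G`-extension by `ν^n`-almost every simple function is weakly mixing.
-/

namespace Pool.Agent.Results.MP_8d8e6a_an.WeakMixingExtensions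

open MeasureTheory Set Pool.Agent.Skew

theorem result {G : Type*} [Group G] [TopologicalSpace G] [IsTopologicalGroup G]
    [CompactSpace G] [ConnectedSpace G] [T2Space G] [SecondCountableTopology G]
    [MeasurableSpace G] [BorelSpace G]
    (ν : Measure G) [ν.IsHaarMeasure] [IsProbabilityMeasure ν]
    {n : ℕ} (E : IET n) (hE : WeaklyMixing E.map leb) :
    ∀ᵐ g ∂(Measure.pi fun _ : Fin n => ν), WeaklyMixing (E.skew g) (leb.prod ν) := by
  have hT := E.measurePreserving_map
  have herg : Ergodic E.map leb := ergodic_of_prod hT hE
  apply assembly ν E hE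
  intro χ hχ hχn hχ1 k hk hk1
  have hmeas : ∀ i, leb (k ⁻¹' {i}) = ENNReal.ofReal (E.len i) := by
    intro i
    rw [leb, Measure.restrict_apply (hk (measurableSet_singleton i)), ← E.volume_interval i]
    congr 1
    ext x
    constructor
    · rintro ⟨h1, h2⟩
      have := hk1 x h2
      rwa [show k x = i from h1] at this
    · intro hx
      have h2 := E.interval_sub i hx
      exact ⟨E.interval_disj (hk1 x h2) hx, h2⟩
  refine torus_case leb E.map hT hE k hk ⟨0, E.n_pos⟩ ?_ ?_ ν χ hχ hχn hχ1
  · rw [hmeas]
    simpa using E.len_pos ⟨0, E.n_pos⟩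
  · rw [hmeas]
    intro h
    have h1 := len_lt_one E herg ⟨0, E.n_pos⟩
    rw [ENNReal.ofReal_eq_one] at h
    linarith

end Pool.Agent.Results.MP_8d8e6a_an.WeakMixingExtensions
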